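import Pool.Agent.K3h67.SIC.Gauss

/-!
# Asymptotic Weyl–Heisenberg fiducials

For all primes `d`, and for all `d` such that `d + 1` is a prime power, there is a unit vector whose
overlaps `|⟨ψ|D_{a,b}|ψ⟩|`, `(a,b) ≠ (0,0)`, are all equal to `1/√(d+1)` up to a relative error of
`10 (d+1)^{-1/4}`.

For a prime `d ≥ 5` the vector is the cubic phase of Alltop with the entry at `0` enlarged; if
`d + 1 = q` is a prime power it is `k ↦ φ(γ^k)`, where `φ` is an additive character and `γ` a
primitive element of the field with `q` elements, plus a multiple of `|0⟩` and a multiple of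
`∑ |k⟩`.
-/

set_option autoImplicit false

namespace Pool.Agent.Results.MP_1c78a5_mp.AsymptoticFiducials

open Pool.Agent.K3h67.SIC

/-- **Asymptotic fiducials**: if `d` is prime or `d + 1` is a prime power then there is a unit
vector `ψ ∈ ℂ^d` with `|√(d+1) |⟨ψ|D_{a,b}|ψ⟩| - 1| ≤ 10 (d+1)^{-1/4}` for all
`(a,b) ≠ (0,0)`. -/
theorem result (d : ℕ) [NeZero d] (hd : d.Prime ∨ IsPrimePow (d + 1)) :
    ∃ ψ : ZMod d → ℂ, ip ψ ψ = 1 ∧ ∀ a b : ZMod d, (a, b) ≠ (0, 0) →
      |Real.sqrt ((d : ℝ) + 1) * ‖ip ψ (D a b ψ)‖ - 1| ≤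
        10 / Real.sqrt (Real.sqrt ((d : ℝ) + 1)) := by
  by_cases h3 : d ≤ 3
  · exact small h3
  rcases hd with hd | hd
  · have h5 : 5 ≤ d := by
      by_contra h
      have h4 : d = 4 := by omega
      rw [h4] at hd
      exact absurd hd (by norm_num)
    exact prime_case hd h5
  · exact gauss_case (by omega) hd

end Pool.Agent.Results.MP_1c78a5_mp.AsymptoticFiducials
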