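import Pool.Agent.K3h67.SIC.Every

/-!
# Weyl–Heisenberg orbits with all overlaps `O(1/d)` in every dimension

In every dimension `d ≥ 1` there is a unit vector `ψ` whose `d² - 1` overlaps
`|⟨ψ, X^a Z^b ψ⟩|²`, `(a, b) ≠ (0, 0)`, are all at most a constant times the value `1/(d+1)` that
they would have for a Weyl–Heisenberg SIC fiducial.

The vector is the periodisation of `W(n) e(n³/p) + W(n+d/2) e((n³ + 7dn²)/p)` where `W` is the
sine window on `(0, d)` and `p` is a prime between `14d` and `28d`.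
-/

set_option autoImplicit false

namespace Pool.Agent.Results.MP_1c78a5_mp.EveryDimension

open Pool.Agent.K3h67.SIC

/-- **Near-fiducials in every dimension**: for every `d ≥ 1` there is a unit vector `ψ ∈ ℂ^d` with
`|⟨ψ|D_{a,b}|ψ⟩|² ≤ 250000000/(d+1)` for all `(a,b) ≠ (0,0)`. -/
theorem result (d : ℕ) [NeZero d] :
    ∃ ψ : ZMod d → ℂ, ip ψ ψ = 1 ∧
      ∀ a b : ZMod d, (a, b) ≠ (0, 0) → ‖ip ψ (D a b ψ)‖ ^ 2 ≤ 250000000 / ((d : ℝ) + 1) :=
  every d

end Pool.Agent.Results.MP_1c78a5_mp.EveryDimension
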