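import Mathlib
import Pool.Agent.K3h22.SL.H7

/-!
# Weyl–Heisenberg SIC fiducials with a dilation symmetry of order `(p - 1) / 2`

Let `p` be prime and let `ψ` be a Weyl–Heisenberg SIC fiducial in dimension `p` which is invariant,
up to a phase and a displacement, under `|j⟩ ↦ |k j⟩`, where the powers of `k` contain all nonzero
squares modulo `p`. Then `p` is `2`, `3`, `7` or `19`. In particular a fiducial in prime dimension
whose coordinates are constant on the quadratic residues and on the nonresidues (the construction of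
Appleby for `p = 7, 19`) exists for no other prime.

Idea of the proof. For `p = 1` modulo `4` the vector is an eigenvector of the parity operator. For
`p = 3` modulo `4` the fiducial property is equivalent to equations for the quartic sums
`T(a, k) = ∑ ψ(j) ψ*(j+a) ψ*(j+k) ψ(j+a+k)`. If `ψ = u + v χ + w δ`, `χ` the quadratic character,
they say that `∑ χ(j) χ(j+a) χ(j+k) χ(j+a+k)` takes only two values, depending on a sign
`τ(a, k)`. The power moments modulo `p` of these character sums are known, and comparing the moments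
of order 2, 4, 6 gives `p ∣ 2 ^ a 3 ^ b 19`; the prime `11` is excluded by hand. If
`ψ = η (u + v χ)` with a nontrivial character `η`, one reduces everything modulo a place above `p` of
the complex numbers: `η` becomes `j ^ r`, the moduli and the overlap at `X` determine the reductions
of `|u|²`, `|v|²`, `u v*`, `v u*`, and the first moment of the reduced `T(1, x)` is `2 r + 1` or
`2 r`, which is not zero.
-/

set_option autoImplicit false

namespace Pool.Agent.Results.MP_1c78a5_mp.LegendreFiducials

open Matrix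

variable {d : ℕ} [NeZero d]

/-- `ω ^ x` for a residue `x` modulo `d`, where `ω = exp (2 π i / d)` -/
noncomputable def omegaPow (x : ZMod d) : ℂ :=
  Complex.exp (2 * Real.pi * Complex.I * (x.val : ℂ) / (d : ℂ))

/-- the displacement operator `X ^ a Z ^ b`, which maps `|j⟩` to `ω ^ (b j) |j + a⟩` -/
noncomputable def displacement (a b : ZMod d) : Matrix (ZMod d) (ZMod d) ℂ :=
  Matrix.of fun i j => if i = j + a then omegaPow (b * j) else 0

/-- `ψ` is a Weyl–Heisenberg SIC fiducial: a unit vector with
`|⟨ψ, X ^ a Z ^ b ψ⟩| ^ 2 = 1 / (d + 1)` for all `(a, b) ≠ (0, 0)` -/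
def IsFiducial (ψ : ZMod d → ℂ) : Prop :=
  ∑ j, ‖ψ j‖ ^ 2 = 1 ∧ ∀ a b : ZMod d, (a, b) ≠ (0, 0) →
    ‖star ψ ⬝ᵥ (displacement a b *ᵥ ψ)‖ ^ 2 = 1 / ((d : ℝ) + 1)

theorem omegaPow_eq (x : ZMod d) : omegaPow x = R503.SIC.e x := by
  unfold omegaPow R503.SIC.e
  rw [ZMod.stdAddChar_apply, ZMod.toCircle_apply]

theorem overlap_eq (ψ : ZMod d → ℂ) (a b : ZMod d) :
    star ψ ⬝ᵥ (displacement a b *ᵥ ψ) = R503.SIC.ov ψ a b := by
  unfold R503.SIC.ov
  have h1 : ∀ i, (displacement a b *ᵥ ψ) i = omegaPow (b * (i - a)) * ψ (i - a) := by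
    intro i
    rw [Matrix.mulVec, dotProduct, Finset.sum_eq_single (i - a)]
    · simp [displacement]
    · intro j _ hj
      simp only [displacement, Matrix.of_apply]
      rw [if_neg (fun h => hj (by rw [h]; ring)), zero_mul]
    · intro h; exact absurd (Finset.mem_univ _) h
  rw [dotProduct]
  refine Fintype.sum_equiv (Equiv.subRight a) _ _ fun i => ?_
  rw [h1, omegaPow_eq, Pi.star_apply]
  simp

theorem fid_iff (ψ : ZMod d → ℂ) : IsFiducial ψ ↔ R503.SIC.Fid ψ := by
  unfold IsFiducial R503.SIC.Fid
  simp only [overlap_eq]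

/-- **Dilation symmetries of order `(p - 1) / 2`.** Let `p` be prime and let `ψ` be a
Weyl–Heisenberg SIC fiducial in dimension `p` with `ψ (k j + a) = c ω ^ (b j) ψ j` for all `j`, where
every nonzero square modulo `p` is a power of `k`. Then `p` is `2`, `3`, `7` or `19`. -/
theorem result (p : ℕ) [Fact p.Prime] (ψ : ZMod p → ℂ) (hψ : IsFiducial ψ) (k a b : ZMod p) (c : ℂ)
    (hk : ∀ g : ZMod p, g ≠ 0 → ∃ n : ℕ, g ^ 2 = k ^ n)
    (h : ∀ j, ψ (k * j + a) = c * omegaPow (b * j) * ψ j) :
    p = 2 ∨ p = 3 ∨ p = 7 ∨ p = 19 := by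
  refine Pool.Agent.K3h22.SL.main3 (a := a) (b := b) (c := c) ((fid_iff ψ).1 hψ) hk fun j => ?_
  rw [h j, omegaPow_eq]

end Pool.Agent.Results.MP_1c78a5_mp.LegendreFiducials
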