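import Pool.Agent.K3h59.SICF.Field3

/-!
# The fields generated by the overlaps of Weyl–Heisenberg SIC fiducials

Let `ψ` be a Weyl–Heisenberg SIC fiducial in dimension `d ≥ 2`, `τ = - exp (π i / d)` and
`A(a, b) = τ ^ (a b) ⟨ψ, X ^ a Z ^ b ψ⟩` for integers `a`, `b`. We show:

* the field generated by the numbers `A(a, b)` contains `2 cos (π / d)`, that is, the maximal real
  subfield of the field of the `2 d`-th roots of unity; so its degree over `ℚ` (if finite) is at least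
  `φ(2 d) / 2`, and a number field contains the overlaps of fiducials in finitely many dimensions
  only. For `d ≥ 4`, `d ≠ 8, 24, 48` the degree is at least `φ(2 d)`;
* for `d ≥ 7` the ratios of the overlaps generate the same field, and the field generated by the
  overlap phases `√(d + 1) A(a, b)` contains `√(d + 1)` and `2 cos (π / d)`;
* if a homomorphism of fields `σ` (for instance the identity) maps the overlaps of a fiducial to the
  overlaps of another one (or the same one) along an integral matrix, up to a displacement, then the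
  determinant of the matrix is `±` the cyclotomic character of `σ`: `τ ^ det = σ(τ) ^ (± 1)`;
* this holds in a robust form, with up to `d (√(d + 1) - 1) / 4` exceptional displacements.

Idea of the proof: `∑_t A(t) A(x + y - t) τ ^ ⟨t, y - x⟩ = d τ ^ ⟨x, y⟩ A(x) A(y)`. The equation
`ψ ψ* ψ ψ* = ψ ψ*` is the case `x = 0`. If its image under `σ` has the same overlaps and
`σ(τ) = τ ^ (2 m + 1)`, comparison with the case `x = -m s`, `y = (m + 1) s` gives
`A(s) = A(-m s) A((m + 1) s)`, which is impossible for the absolute values unless `m` or `m + 1` is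
divisible by `d`.
-/

set_option autoImplicit false

namespace Pool.Agent.Results.MP_1c78a5_mp.OverlapFields

open Matrix

variable {d : ℕ} [NeZero d]

/-- `ω ^ x` for a residue `x` modulo `d`, where `ω = exp (2 π i / d)` -/
noncomputable def omegaPow (x : ZMod d) : ℂ :=
  Complex.exp (2 * Real.pi * Complex.I * (x.val : ℂ) / (d : ℂ))

/-- the displacement operator `X ^ a Z ^ b`, which maps `|j⟩` to `ω ^ (b j) |j + a⟩` -/
noncomputable def displacement (a b : ZMod d) : Matrix (ZMod d) (ZMod d) ℂ :=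
  Matrix.of fun i j => if i = j + a then omegaPow (b * j) else 0

/-- `ψ` is a Weyl–Heisenberg SIC fiducial: a unit vector with
`|⟨ψ, X ^ a Z ^ b ψ⟩| ^ 2 = 1 / (d + 1)` for all `(a, b) ≠ (0, 0)` -/
def IsFiducial (ψ : ZMod d → ℂ) : Prop :=
  ∑ j, ‖ψ j‖ ^ 2 = 1 ∧ ∀ a b : ZMod d, (a, b) ≠ (0, 0) →
    ‖star ψ ⬝ᵥ (displacement a b *ᵥ ψ)‖ ^ 2 = 1 / ((d : ℝ) + 1)

/-- `τ = - exp (π i / d)` -/
noncomputable def tau (d : ℕ) : ℂ := -Complex.exp (Real.pi * Complex.I / d)

/-- the symmetrised overlap `τ ^ (a b) ⟨ψ, X ^ a Z ^ b ψ⟩` for integers `a`, `b` -/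
noncomputable def overlap (ψ : ZMod d → ℂ) (a b : ℤ) : ℂ :=
  tau d ^ (a * b) * (star ψ ⬝ᵥ (displacement (a : ZMod d) (b : ZMod d) *ᵥ ψ))

/-- the overlap phase `√(d + 1) τ ^ (a b) ⟨ψ, X ^ a Z ^ b ψ⟩` -/
noncomputable def phase (ψ : ZMod d → ℂ) (a b : ℤ) : ℂ :=
  (Real.sqrt ((d : ℝ) + 1) : ℂ) * overlap ψ a b

theorem overlap_c (ψ : ZMod d → ℂ) (a b : ZMod d) :
    star ψ ⬝ᵥ (displacement a b *ᵥ ψ) = K3h59.SICF.c ψ a b := by
  unfold K3h59.SICF.c
  have h0 : ∀ x : ZMod d, omegaPow x = K3h59.SICF.e x := by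
    intro x
    unfold omegaPow K3h59.SICF.e
    rw [ZMod.stdAddChar_apply, ZMod.toCircle_apply]
  have h1 : ∀ i, (displacement a b *ᵥ ψ) i = omegaPow (b * (i - a)) * ψ (i - a) := by
    intro i
    rw [Matrix.mulVec, dotProduct, Finset.sum_eq_single (i - a)]
    · simp [displacement]
    · intro j _ hj
      simp only [displacement, Matrix.of_apply]
      rw [if_neg (fun h => hj (by rw [h]; ring)), zero_mul]
    · intro h; exact absurd (Finset.mem_univ _) h
  rw [dotProduct]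
  refine Fintype.sum_equiv (Equiv.subRight a) _ _ fun i => ?_
  simp only [Equiv.subRight_apply]
  rw [h1, h0, Pi.star_apply, sub_add_cancel, mul_assoc, mul_comm (K3h59.SICF.e _)]
  rfl

theorem overlap_eq (ψ : ZMod d → ℂ) (a b : ℤ) : overlap ψ a b = K3h59.SICF.A ψ a b := by
  unfold overlap K3h59.SICF.A
  rw [overlap_c]
  rfl

theorem fid_iff (ψ : ZMod d → ℂ) : IsFiducial ψ ↔ K3h59.SICF.Fid ψ := by
  unfold IsFiducial K3h59.SICF.Fid
  simp only [overlap_c]

omit [NeZero d] in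
theorem tau_add_inv : ((2 * Real.cos (Real.pi / d) : ℝ) : ℂ) =
    -(K3h59.SICF.tau d + (K3h59.SICF.tau d)⁻¹) := by
  unfold K3h59.SICF.tau
  push_cast
  rw [Complex.cos, inv_neg, ← Complex.exp_neg,
    show (Real.pi : ℂ) / d * Complex.I = Real.pi * Complex.I / d by ring,
    show -((Real.pi : ℂ) / d) * Complex.I = -(Real.pi * Complex.I / d) by ring]
  ring

/-- **The fields generated by the overlaps of Weyl–Heisenberg SIC fiducials.**
(1) Every field which contains the overlaps of a fiducial in dimension `d` contains `2 cos (π / d)`.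
(2) If its degree `n` over `ℚ` is finite then `φ(2 d) ≤ 2 n` and `d ≤ 4 n ^ 2`, and `φ(2 d) ≤ n` if
`d ≥ 4` and `d ≠ 8, 24, 48`. (3) If `d ≥ 7`, a field which contains all ratios of overlaps contains
the overlaps, and a field which contains the phases contains `√(d + 1)` and `2 cos (π / d)`. (4) If a
homomorphism `σ` maps the overlaps of `ψ` to those of `ψ'` along a matrix, up to a displacement,
then `τ ^ det = σ(τ) ^ (± 1)`. (5) If this is not so and `|σ(x)| = |x|` for the overlaps `x` of `ψ`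
then the overlaps correspond to each other only outside of at least `d (√(d + 1) - 1) / 4` elements
of `(ℤ/d)^2`. -/
theorem result :
    (∀ (d : ℕ) [NeZero d], 2 ≤ d → ∀ ψ : ZMod d → ℂ, IsFiducial ψ → ∀ K : Subfield ℂ,
      (∀ a b : ℤ, overlap ψ a b ∈ K) → ((2 * Real.cos (Real.pi / d) : ℝ) : ℂ) ∈ K) ∧
    (∀ (d : ℕ) [NeZero d], 2 ≤ d → ∀ ψ : ZMod d → ℂ, IsFiducial ψ →
      ∀ F : IntermediateField ℚ ℂ, FiniteDimensional ℚ F → (∀ a b : ℤ, overlap ψ a b ∈ F) →
        Nat.totient (2 * d) ≤ 2 * Module.finrank ℚ F ∧ d ≤ 4 * Module.finrank ℚ F ^ 2 ∧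
        (4 ≤ d → d ≠ 8 → d ≠ 24 → d ≠ 48 → Nat.totient (2 * d) ≤ Module.finrank ℚ F)) ∧
    (∀ (d : ℕ) [NeZero d], 7 ≤ d → ∀ ψ : ZMod d → ℂ, IsFiducial ψ → ∀ K : Subfield ℂ,
      ((∀ a b a' b' : ℤ, ¬ ((d : ℤ) ∣ a ∧ (d : ℤ) ∣ b) → ¬ ((d : ℤ) ∣ a' ∧ (d : ℤ) ∣ b') →
          overlap ψ a b / overlap ψ a' b' ∈ K) →
        ∀ a b : ℤ, overlap ψ a b ∈ K) ∧
      ((∀ a b : ℤ, ¬ ((d : ℤ) ∣ a ∧ (d : ℤ) ∣ b) → phase ψ a b ∈ K) →
        (Real.sqrt ((d : ℝ) + 1) : ℂ) ∈ K ∧ ((2 * Real.cos (Real.pi / d) : ℝ) : ℂ) ∈ K)) ∧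
    (∀ (d : ℕ) [NeZero d], 2 ≤ d → ∀ ψ ψ' : ZMod d → ℂ, IsFiducial ψ → IsFiducial ψ' →
      ∀ (σ : ℂ →+* ℂ) (p q r s u v : ℤ),
        (∀ a b : ℤ, σ (overlap ψ a b) =
          omegaPow ((u * a + v * b : ℤ) : ZMod d) * overlap ψ' (p * a + q * b) (r * a + s * b)) →
        tau d ^ (p * s - q * r) = σ (tau d) ∨ tau d ^ (p * s - q * r) = (σ (tau d))⁻¹) ∧
    (∀ (d : ℕ) [NeZero d], 2 ≤ d → ∀ ψ ψ' : ZMod d → ℂ, IsFiducial ψ → IsFiducial ψ' →
      ∀ (σ : ℂ →+* ℂ) (p q r s u v : ℤ), (∀ a b : ℤ, ‖σ (overlap ψ a b)‖ = ‖overlap ψ a b‖) →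
        IsCoprime (p * s - q * r) (d : ℤ) →
        tau d ^ (p * s - q * r) ≠ σ (tau d) → tau d ^ (p * s - q * r) ≠ (σ (tau d))⁻¹ →
        ∀ E : Finset (ZMod d × ZMod d),
          (∀ a b : ℤ, ((a : ZMod d), (b : ZMod d)) ∉ E → σ (overlap ψ a b) =
            omegaPow ((u * a + v * b : ℤ) : ZMod d) *
              overlap ψ' (p * a + q * b) (r * a + s * b)) →
          d * (Real.sqrt (d + 1) - 1) / 4 ≤ (E.card : ℝ)) := by
  have hω : ∀ (d : ℕ) [NeZero d] (n : ℤ), omegaPow (n : ZMod d) = K3h59.SICF.tau d ^ (2 * n) := by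
    intro d _ n
    rw [K3h59.SICF.tau_sq]
    unfold omegaPow K3h59.SICF.e
    rw [ZMod.stdAddChar_apply, ZMod.toCircle_apply]
  have hcos : ∀ (d : ℕ) [NeZero d] (K : Subfield ℂ),
      K3h59.SICF.tau d + (K3h59.SICF.tau d)⁻¹ ∈ K → ((2 * Real.cos (Real.pi / d) : ℝ) : ℂ) ∈ K := by
    intro d _ K h
    rw [tau_add_inv]
    exact K.neg_mem h
  have h1 : ∀ (d : ℕ) [NeZero d], 2 ≤ d → ∀ ψ : ZMod d → ℂ, IsFiducial ψ → ∀ K : Subfield ℂ,
      (∀ a b : ℤ, overlap ψ a b ∈ K) → K3h59.SICF.tau d + (K3h59.SICF.tau d)⁻¹ ∈ K := by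
    intro d _ hd ψ hψ K hK
    exact K3h59.SICF.cos_mem hd ((fid_iff ψ).1 hψ) fun a b => by rw [← overlap_eq]; exact hK a b
  refine ⟨fun d _ hd ψ hψ K hK => hcos d K (h1 d hd ψ hψ K hK), ?_, ?_, ?_, ?_⟩
  · intro d _ hd ψ hψ F hfin hF
    have h2 : K3h59.SICF.tau d + (K3h59.SICF.tau d)⁻¹ ∈ F := h1 d hd ψ hψ F.toSubfield hF
    have h3 := K3h59.SICF.totient_le h2
    refine ⟨h3, ?_, ?_⟩
    · have h4 := K3h59.SICF.le_totient_sq (NeZero.ne d)
      calc d ≤ Nat.totient (2 * d) ^ 2 := h4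
        _ ≤ (2 * Module.finrank ℚ F) ^ 2 := Nat.pow_le_pow_left h3 2
        _ = _ := by ring
    · intro h4 h8 h24 h48
      have hnr : ∃ a b : ℤ, starRingEnd ℂ (K3h59.SICF.A ψ a b) ≠ K3h59.SICF.A ψ a b := by
        by_contra hcon
        push Not at hcon
        rcases K3h59.SICF.real_case h4 ((fid_iff ψ).1 hψ) hcon with h | h | h
        · exact h8 h
        · exact h24 h
        · exact h48 h
      obtain ⟨a, b, hab⟩ := hnr
      exact K3h59.SICF.totient_le' h2 (by rw [← overlap_eq]; exact hF a b) hab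
  · intro d _ hd ψ hψ K
    have key : (∀ a b a' b' : ℤ, ¬ ((d : ℤ) ∣ a ∧ (d : ℤ) ∣ b) →
        ¬ ((d : ℤ) ∣ a' ∧ (d : ℤ) ∣ b') → overlap ψ a b / overlap ψ a' b' ∈ K) →
        ∀ a b : ℤ, overlap ψ a b ∈ K := by
      intro h a b
      rw [overlap_eq]
      refine K3h59.SICF.ratio_mem hd ((fid_iff ψ).1 hψ) (fun a b a' b' h1 h2 => ?_) a b
      rw [← overlap_eq, ← overlap_eq]
      exact h a b a' b' h1 h2
    refine ⟨key, fun h => ?_⟩
    have hs : (Real.sqrt ((d : ℝ) + 1) : ℂ) ≠ 0 := by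
      have : Real.sqrt ((d : ℝ) + 1) ≠ 0 := (Real.sqrt_pos.2 (by positivity)).ne'
      exact_mod_cast this
    have h2 := key (fun a b a' b' h3 h4 => by
      have h5 : overlap ψ a b / overlap ψ a' b' = phase ψ a b / phase ψ a' b' := by
        unfold phase
        rw [mul_div_mul_left _ _ hs]
      rw [h5]
      exact K.div_mem (h a b h3) (h a' b' h4))
    have h10 : ¬ ((d : ℤ) ∣ (1 : ℤ) ∧ (d : ℤ) ∣ (0 : ℤ)) := by
      rintro ⟨h3, -⟩
      have := Int.le_of_dvd one_pos h3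
      omega
    refine ⟨?_, hcos d K (h1 d (by omega) ψ hψ K h2)⟩
    have h6 : (Real.sqrt ((d : ℝ) + 1) : ℂ) = phase ψ 1 0 / overlap ψ 1 0 := by
      unfold phase
      rw [mul_div_cancel_right₀]
      rw [overlap_eq]
      exact K3h59.SICF.A_ne_zero ((fid_iff ψ).1 hψ) 1 0
    rw [h6]
    exact K.div_mem (h 1 0 h10) (h2 1 0)
  · intro d _ hd ψ ψ' hψ hψ' σ p q r s u v hF
    have hlike := K3h59.SICF.like_map ((fid_iff ψ).1 hψ) (RingHom.id ℂ) σ
      (fun i j => K3h59.SICF.A ψ i j) (fun i j => rfl) (K3h59.SICF.tau d) rfl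
    refine K3h59.SICF.core (u := u) (v := v) hd hlike ((fid_iff ψ').1 hψ') fun a b => ?_
    have := hF a b
    rw [hω, overlap_eq, overlap_eq] at this
    exact this
  · intro d _ hd ψ ψ' hψ hψ' σ p q r s u v hn hcop hne hne' E hE
    have hlike := K3h59.SICF.like_map ((fid_iff ψ).1 hψ) (RingHom.id ℂ) σ
      (fun i j => K3h59.SICF.A ψ i j) (fun i j => rfl) (K3h59.SICF.tau d) rfl
    have hτ1 : ∀ n : ℤ, ‖K3h59.SICF.tau d ^ (2 * n)‖ = 1 := by
      intro n; rw [norm_zpow, K3h59.SICF.norm_tau, _root_.one_zpow]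
    have h := K3h59.SICF.robust (K3h59.SICF.like_twist hlike (-u) (-v)) (fun a b hab => by
        rw [norm_mul, hτ1, one_mul]
        have := hn a b
        rw [overlap_eq] at this
        rw [this]
        exact K3h59.SICF.norm_A_ne ((fid_iff ψ).1 hψ) hab) (fun a b ha hb => by
        rw [K3h59.SICF.tau_two_dvd (dvd_add (Dvd.dvd.mul_left ha _) (Dvd.dvd.mul_left hb _)),
          one_mul, K3h59.SICF.A_one ((fid_iff ψ).1 hψ) ha hb, map_one])
      ((fid_iff ψ').1 hψ') hcop hne hne' E (fun a b hab => by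
        have := hE a b hab
        rw [hω, overlap_eq, overlap_eq] at this
        rw [this, ← mul_assoc, ← zpow_add₀ K3h59.SICF.tau_ne,
          show 2 * (-u * a + -v * b) + 2 * (u * a + v * b) = 0 by ring, zpow_zero, one_mul])
    linarith

end Pool.Agent.Results.MP_1c78a5_mp.OverlapFields
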